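import Pool.Agent.H68.SF.LT
import Pool.Agent.H9.SF.Bas

/-! Part L (constructibility), row LED: elementary maps transfer definable relations and commute
with definable functions. -/

namespace SF

theorem led : T_LED := by
  intro K R hR N' N f hf hK' hK v hv
  obtain ⟨φ, hφ⟩ := hR
  have hw : In (· ∈ N) (fun i => app f (v i)) := fun i => app_mem hf.1 (hv i)
  rw [← hφ _ hK' v hv, hf.el φ v hv]
  exact hφ _ hK _ hw

theorem let_ : T_LET := by
  intro K F hF N' N f hf hK' hK v hv
  have h0 : F (· ∈ N') v ∈ N' := hF.1 _ hK' v hv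
  have h1 := led K _ hF.2 N' N f hf hK' hK (cons (F (· ∈ N') v) v) (In.cons hv h0)
  exact h1.1 rfl

theorem pf_LED : T_LED := led

theorem pf_LET : T_LET := let_

end SF
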