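import Pool.Agent.H72.SF.YT

/-! Part Y, row YC: definability of set coded frames and lifts. -/

set_option linter.unusedVariables false

open Ordinal Cardinal Order Set
open scoped ZFSet

namespace SF.H16

open SF

private def ls (l : List ℕ) (i : ℕ) : ℕ := l.getD i 0

private theorem ne_e {f : (V → Prop) → (ℕ → V) → V} (hf : Tm ZFm f) :
    Dfb ZFm (fun M v => f M v ≠ ∅) := (Dfb.eq hf Tm.empty).not

private theorem yc_lift (hYB : T_YB) :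
    Dfb ZFm (fun _ v => LiftS (v 0) (v 1) (v 2) (v 3) (v 4) (v 5) (v 6) (v 7) (v 8) (v 9)
      (v 10)) := by
  have h1 : Dfb ZFm (fun _ v => v 9 ⊆ app (v 2) (v 5)) :=
    Dfb.subset (Tm.var 9) (Tm.app (Tm.var 2) (Tm.var 5))
  have h2 : Dfb ZFm (fun _ v => ∀ x ∈ v 0, v 9 ⊆ app (v 2) x → v 5 ⊆ x) :=
    Dfb.ball (R := fun _ v => v 10 ⊆ app (v 3) (v 0) → v 6 ⊆ v 0) ktr_zfm (Tm.var 0)
      ((Dfb.subset (Tm.var 10) (Tm.app (Tm.var 3) (Tm.var 0))).imp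
        (Dfb.subset (Tm.var 6) (Tm.var 0)))
  have h3 : Dfb ZFm (fun _ v => BMapS (v 3) (v 4) (v 1) (v 9) (v 10)) :=
    hYB.1.rn (ls [3, 4, 1, 9, 10])
  have h4 : Dfb ZFm (fun _ v => ∀ x ∈ v 7, ∀ z ∈ v 4, Blw (v 1) (v 10) x z) := by
    refine Dfb.ball (R := fun _ v => ∀ z ∈ v 5, Blw (v 2) (v 11) (v 0) z) ktr_zfm (Tm.var 7) ?_
    refine Dfb.ball (R := fun _ v => Blw (v 3) (v 12) (v 1) (v 0)) ktr_zfm (Tm.var 5) ?_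
    exact hYB.2.2.rn (ls [3, 12, 1, 0])
  have h5 : Dfb ZFm (fun _ v => ∀ z ∈ v 4, v 9 ∩ app (v 2) (app (v 6) (ZFSet.pair (v 8) z)) ⊆
      app (v 10) (ZFSet.pair (v 8) z)) := by
    refine Dfb.ball (R := fun _ v => v 10 ∩ app (v 3) (app (v 7) (ZFSet.pair (v 9) (v 0))) ⊆
      app (v 11) (ZFSet.pair (v 9) (v 0))) ktr_zfm (Tm.var 4) ?_
    exact Dfb.subset (Tm.inter (Tm.var 10) (Tm.app (Tm.var 3) (Tm.app (Tm.var 7)
      (Tm.pair (Tm.var 9) (Tm.var 0))))) (Tm.app (Tm.var 11) (Tm.pair (Tm.var 9) (Tm.var 0)))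
  refine (h1.and (h2.and (h3.and (h4.and h5)))).congr fun M k v hv => ?_
  constructor
  · rintro ⟨a1, a2, a3, a4, a5⟩
    exact ⟨a1, a2, a3, a4, a5⟩
  · intro h
    exact ⟨h.le, h.proj, h.map, h.com, h.keep⟩

private theorem yc_frame (hYA : T_YA) (hYB : T_YB) :
    Dfb ZFm (fun M v => FrameS M (v 0) (v 1) (v 2) (v 3) (v 4) (v 5) (v 6) (v 7) (v 8) (v 9) (v 10)
      (v 11) (v 12) (v 13) (v 14) (v 15)) := by
  have h1 : Dfb ZFm (fun M v => NPr M (v 6) (v 7)) := hYB.2.1.rn (ls [6, 7])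
  have h2 : Dfb ZFm (fun _ v => v 8 ≠ ∅) := ne_e (Tm.var 8)
  have h3 : Dfb ZFm (fun _ v => BMapS (v 6) (v 7) (v 2) (v 8) (v 9)) :=
    hYB.1.rn (ls [6, 7, 2, 8, 9])
  have hk : ∀ i j : ℕ, Dfb ZFm (fun _ v => app (v 9) (ZFSet.pair (v i) (v j)) = v 8) :=
    fun i j => Dfb.eq (Tm.app (Tm.var 9) (Tm.pair (Tm.var i) (Tm.var j))) (Tm.var 8)
  have h9 : Dfb ZFm (fun _ v => NGen (v 6) (v 12) (v 15)) := hYA.2.2.2.1.rn (ls [6, 12, 15])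
  have h10 : Dfb ZFm (fun M v => ∃ x, M x ∧ ∃ y, M y ∧ (ZFSet.pair x y ∈ v 13 ∧ y ∈ v 15)) := by
    refine Dfb.ex (R := fun M v => ∃ y, M y ∧ (ZFSet.pair (v 0) y ∈ v 14 ∧ y ∈ v 16)) ?_
    refine Dfb.ex (R := fun M v => ZFSet.pair (v 1) (v 0) ∈ v 15 ∧ v 0 ∈ v 17) ?_
    exact (Dfb.mem (Tm.pair (Tm.var 1) (Tm.var 0)) (Tm.var 15)).and (Dfb.mem (Tm.var 0) (Tm.var 17))
  have h11 : Dfb ZFm (fun M v => ∀ x, M x → ∀ y, M y → (ZFSet.pair x y ∈ v 13 → (y ∈ v 15 →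
      ∀ z ∈ v 7, Blw (v 2) (v 9) x z))) := by
    refine Dfb.all (R := fun M v => ∀ y, M y → (ZFSet.pair (v 0) y ∈ v 14 → (y ∈ v 16 →
      ∀ z ∈ v 8, Blw (v 3) (v 10) (v 0) z))) ?_
    refine Dfb.all (R := fun M v => (ZFSet.pair (v 1) (v 0) ∈ v 15 → (v 0 ∈ v 17 →
      ∀ z ∈ v 9, Blw (v 4) (v 11) (v 1) z))) ?_
    refine (Dfb.mem (Tm.pair (Tm.var 1) (Tm.var 0)) (Tm.var 15)).imp
      ((Dfb.mem (Tm.var 0) (Tm.var 17)).imp ?_)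
    refine Dfb.ball (R := fun _ v => Blw (v 5) (v 12) (v 2) (v 0)) ktr_zfm (Tm.var 9) ?_
    exact hYB.2.2.rn (ls [5, 12, 2, 0])
  have h12 : Dfb ZFm (fun _ v => ∀ r ∈ v 6, v 8 ⊆ app (v 1) (ZFSet.pair (v 10)
      (ev (v 10) r (v 15)))) := by
    refine Dfb.ball (R := fun _ v => v 9 ⊆ app (v 2) (ZFSet.pair (v 11)
      (ev (v 11) (v 0) (v 16)))) ktr_zfm (Tm.var 6) ?_
    have he : Tm ZFm (fun _ v => ev (v 11) (v 0) (v 16)) := hYA.2.2.2.2.2.1.rn (ls [11, 0, 16])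
    exact Dfb.subset (Tm.var 9) (Tm.app (Tm.var 2) (Tm.pair (Tm.var 11) he))
  refine (h1.and (h2.and (h3.and ((hk 10 0).and ((hk 11 2).and ((hk 12 3).and ((hk 13 4).and
    ((hk 14 5).and (h9.and (h10.and (h11.and h12))))))))))).congr fun M k v hv => ?_
  constructor
  · rintro ⟨a1, a2, a3, a4, a5, a6, a7, a8, a9, ⟨x, -, y, -, hx, hy⟩, a11, a12⟩
    refine ⟨a1, a2, a3, a4, a5, a6, a7, a8, a9, ⟨x, y, hx, hy⟩, ?_, a12⟩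
    intro x y h1 h2
    have h3 := k.of_pair_mem (hv 13) h1
    exact a11 x h3.1 y h3.2 h1 h2
  · intro h
    obtain ⟨x, y, hx, hy⟩ := h.top
    have h3 := k.of_pair_mem (hv 13) hx
    exact ⟨h.np, h.ne, h.map, h.kw, h.kB, h.kC, h.kh, h.kp, h.gen, ⟨x, h3.1, y, h3.2, hx, hy⟩,
      fun x _ y _ h1 h2 => h.com x y h1 h2, h.sc⟩

private theorem yc_bad (hYA : T_YA) (hYB : T_YB) :
    Dfb ZFm (fun M v => TBad M (v 0) (v 1) (v 2) (v 3) (v 4) (v 5) (v 6) (v 7) (v 8) (v 9) (v 10)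
      (v 11) (v 12) (v 13) (v 14) (v 15) (v 16)) := by
  have h1 := yc_frame hYA hYB
  have h2 : Dfb ZFm (fun _ v => v 16 ∈ v 6) := Dfb.mem (Tm.var 16) (Tm.var 6)
  have h3 : Dfb ZFm (fun M v => ∀ b1 ∈ v 2, b1 ≠ ∅ → (b1 ⊆ v 8 → ∀ c, M c → ∀ s, M s →
      ¬ LiftS (v 2) (v 3) (v 4) (v 6) (v 7) b1 (v 9) (v 15) (v 16) c s)) := by
    refine Dfb.ball (R := fun M v => v 0 ≠ ∅ → (v 0 ⊆ v 9 → ∀ c, M c → ∀ s, M s →
      ¬ LiftS (v 3) (v 4) (v 5) (v 7) (v 8) (v 0) (v 10) (v 16) (v 17) c s)) ktr_zfm (Tm.var 2) ?_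
    refine (ne_e (Tm.var 0)).imp ((Dfb.subset (Tm.var 0) (Tm.var 9)).imp ?_)
    refine Dfb.all (R := fun M v => ∀ s, M s →
      ¬ LiftS (v 4) (v 5) (v 6) (v 8) (v 9) (v 1) (v 11) (v 17) (v 18) (v 0) s) ?_
    refine Dfb.all (R := fun M v =>
      ¬ LiftS (v 5) (v 6) (v 7) (v 9) (v 10) (v 2) (v 12) (v 18) (v 19) (v 1) (v 0)) ?_
    exact ((yc_lift hYB).rn (ls [5, 6, 7, 9, 10, 2, 12, 18, 19, 1, 0])).not
  refine (h1.and (h2.and h3)).congr fun M k v hv => ?_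
  constructor
  · rintro ⟨a1, a2, a3⟩
    exact ⟨a1, a2, a3⟩
  · intro h
    exact ⟨h.fr, h.mem, h.bad⟩

private theorem yc_tbx (hYA : T_YA) (hYB : T_YB) :
    Dfb ZFm (fun M v => TBx M (v 0) (v 1) (v 2) (v 3) (v 4) (v 5) (v 6)) :=
  ((yc_bad hYA hYB).rn
    (ls [10, 11, 12, 13, 14, 15, 9, 8, 16, 7, 6, 5, 4, 3, 2, 1, 0])).ex.ex.ex.ex.ex.ex.ex.ex.ex.ex.congr
    fun M k v hv => Iff.rfl

private theorem yc_good (hYA : T_YA) (hYB : T_YB) :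
    Dfb ZFm (fun M v => GoodS M (v 0) (v 1) (v 2) (v 3) (v 4)) := by
  have h1 : Dfb ZFm (fun M v => FrameS M (v 11) (v 12) (v 13) (v 14) (v 15) (v 10) (v 9) (v 8)
      (v 7) (v 6) (v 5) (v 4) (v 3) (v 2) (v 1) (v 0)) :=
    (yc_frame hYA hYB).rn (ls [11, 12, 13, 14, 15, 10, 9, 8, 7, 6, 5, 4, 3, 2, 1, 0])
  have h2 : Dfb ZFm (fun M v => ∀ q ∈ v 9, ∃ c, M c ∧ ∃ s, M s ∧
      LiftS (v 13) (v 14) (v 15) (v 9) (v 8) (v 7) (v 6) (v 0) q c s) := by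
    refine Dfb.ball (R := fun M v => ∃ c, M c ∧ ∃ s, M s ∧
      LiftS (v 14) (v 15) (v 16) (v 10) (v 9) (v 8) (v 7) (v 1) (v 0) c s) ktr_zfm (Tm.var 9) ?_
    refine Dfb.ex (R := fun M v => ∃ s, M s ∧
      LiftS (v 15) (v 16) (v 17) (v 11) (v 10) (v 9) (v 8) (v 2) (v 1) (v 0) s) ?_
    refine Dfb.ex (R := fun M v =>
      LiftS (v 16) (v 17) (v 18) (v 12) (v 11) (v 10) (v 9) (v 3) (v 2) (v 1) (v 0)) ?_
    exact (yc_lift hYB).rn (ls [16, 17, 18, 12, 11, 10, 9, 3, 2, 1, 0])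
  exact (h1.imp h2).all.all.all.all.all.all.all.all.all.all.ex.congr fun M k v hv => Iff.rfl

/-- YC. Definability of frames and lifts. -/
theorem yc (hYA : T_YA) (hYB : T_YB) : T_YC :=
  ⟨yc_frame hYA hYB, yc_lift hYB, yc_bad hYA hYB, yc_tbx hYA hYB, yc_good hYA hYB⟩

end SF.H16
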